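import Pool.Agent.H78R3.Pi.Main

/-!
# The average finite `π`-adic complexity is `n / 2 + O(1)`

Sketch of the proof.  Identify a sequence `a` of length `n` with its residue class modulo `π^n` and
let `L_a` be the `R`-module of the pairs `(f, g)` with `f ≡ a g (mod π^n)`, of index `N^n` in `R²`.
Measure elements by `ρ(∑ u_i π^i) = max |u_i| N^(i/d)`, so `d log_N ρ` is the size up to `O(1)`.  Let
`m(a)` be the length of a shortest nonzero vector `v` of `L_a`.

* At most `O(X^(2d))` sequences have `m(a) ≤ X`: for `g ≠ 0` with `ρ(g) ≤ X` the number of `a` for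
  which `a g` is congruent to an element of size at most `X` is `O(X^d)`, because kernel and cokernel
  of the multiplication by `g` on `R/π^n` have the same cardinality and the cokernel has
  representatives of size `O(ρ(g))`.  So the average of `d log_N m(a)` is at least `n/2 - O(1)`.
* By the pigeonhole principle and a packing argument in the real space spanned by the multiples of
  `v`, there is a second vector `w` of length `O(N^(n/d) / m(a))`, not parallel to `v`.  Reducing
  `(a, 1)` modulo `π R v + π R w` gives a vector of `L_a` of that length whose second coordinate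
  is `1` modulo `π`.  So the complexity of `a` lies between `d log_N m(a) - O(1)` and
  `n - d log_N m(a) + O(1)`.
-/

namespace Pool.Agent.Results.MP_cc6759_lc.FiniteAverage

open Module Pool.Agent.H78R3.PiAdic

universe u

/-- Case (i): `R` has the `ℤ`-basis `1, π` and `π² = -N`. Case (ii): `R` has the `ℤ`-basis
`1, π, …, π^(d-1)` and `π^d = N`. In both cases `R` is a domain (for instance a unique factorization
domain), and the average `π`-adic complexity of the `N^n` finite sequences of length `n` is
`n / 2 + O(1)`. -/
theorem result :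
    (∀ (R : Type u) [CommRing R] [IsDomain R] (N : ℕ) (π : R) (b : Basis (Fin 2) ℤ R), 2 ≤ N →
      (∀ i, b i = π ^ (i : ℕ)) → π ^ 2 = -(N : R) →
      ∃ C : ℝ, ∀ n : ℕ, |avgComplexity N π (sizeI N b) n - (n : ℝ) / 2| ≤ C) ∧
    (∀ (R : Type u) [CommRing R] [IsDomain R] (N d : ℕ) (π : R) (b : Basis (Fin d) ℤ R), 2 ≤ N →
      1 ≤ d → (∀ i, b i = π ^ (i : ℕ)) → π ^ d = (N : R) →
      ∃ C : ℝ, ∀ n : ℕ, |avgComplexity N π (sizeII N b) n - (n : ℝ) / 2| ≤ C) :=
  ⟨fun _ _ _ _ π b hN hb hp => average_caseI hN π b hb hp,
    fun _ _ _ _ _ π b hN hd hb hp => average_caseII hN hd π b hb hp⟩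

end Pool.Agent.Results.MP_cc6759_lc.FiniteAverage
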